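import Pool.Agent.helper91.HZF.Spec

set_option autoImplicit false

namespace Pool.Agent.HZF

open Finset Pool.Agent.helper38.Neg Pool.Agent.helper55.NT Pool.Agent.LN

theorem UPQ_size {c d q n s κ : ℕ} (hs : s ≤ 2 ^ (q * lg n ^ q)) (hκ : κ ≤ d * lg n ^ d) :
    (s + 1) * (n + 2) ^ c * (κ + 2) ^ (c * κ) ≤
      2 ^ ((q + 2 * c + c * d * d + 2 * (c * d) + 2 * d + 2) *
        lg n ^ (q + 2 * c + c * d * d + 2 * (c * d) + 2 * d + 2)) := by
  obtain ⟨K, hK⟩ : ∃ K, K = q + 2 * c + c * d * d + 2 * (c * d) + 2 * d + 2 := ⟨_, rfl⟩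
  obtain ⟨L, hL⟩ : ∃ L, L = lg n := ⟨_, rfl⟩
  have hL1 : 1 ≤ L := by rw [hL]; exact lg_pos n
  have hn2 : n + 2 < 2 ^ (L + 1) := by rw [hL]; exact lt_two_pow_lg n
  rw [← hL] at hs hκ
  rw [← hK, ← hL]
  have c1 : s + 1 ≤ 2 ^ (q * L ^ q + 1) := by
    have h1 : 1 ≤ 2 ^ (q * L ^ q) := Nat.one_le_two_pow
    rw [pow_succ]
    omega
  have c2 : (n + 2) ^ c ≤ 2 ^ ((L + 1) * c) := by
    rw [pow_mul]
    exact Nat.pow_le_pow_left hn2.le _
  have c3 : κ + 2 ≤ 2 ^ (d * L ^ d + 2) := by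
    have h1 : κ + 2 < 2 ^ (κ + 2) := Nat.lt_two_pow_self
    exact h1.le.trans (Nat.pow_le_pow_right (by norm_num) (by omega))
  have c4 : (κ + 2) ^ (c * κ) ≤ 2 ^ ((d * L ^ d + 2) * (c * (d * L ^ d))) := by
    refine (Nat.pow_le_pow_left c3 (c * κ)).trans ?_
    rw [← pow_mul]
    exact Nat.pow_le_pow_right (by norm_num) (Nat.mul_le_mul_left _ (Nat.mul_le_mul_left _ hκ))
  refine (Nat.mul_le_mul (Nat.mul_le_mul c1 c2) c4).trans ?_
  rw [← pow_add, ← pow_add]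
  refine Nat.pow_le_pow_right (by norm_num) ?_
  have a1 : L ^ q ≤ L ^ K := Nat.pow_le_pow_right hL1 (by omega)
  have a2 : L ^ d ≤ L ^ K := Nat.pow_le_pow_right hL1 (by omega)
  have a3 : L ^ (d + d) ≤ L ^ K := Nat.pow_le_pow_right hL1 (by omega)
  have a4 : L ≤ L ^ K := Nat.le_self_pow (by omega) _
  have a5 : 1 ≤ L ^ K := Nat.one_le_pow _ _ hL1
  have e1 : q * L ^ q + 1 + (L + 1) * c + (d * L ^ d + 2) * (c * (d * L ^ d)) =
      q * L ^ q + 1 + c * L + c + (c * d * d) * L ^ (d + d) + 2 * (c * d) * L ^ d := by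
    rw [pow_add]
    ring
  have e2 : K * L ^ K = q * L ^ K + 2 * (c * L ^ K) + (c * d * d) * L ^ K + 2 * (c * d) * L ^ K +
      2 * (d * L ^ K) + 2 * L ^ K := by
    have : K * L ^ K = (q + 2 * c + c * d * d + 2 * (c * d) + 2 * d + 2) * L ^ K := by rw [← hK]
    rw [this]
    ring
  rw [e1, e2]
  have d1 : q * L ^ q ≤ q * L ^ K := Nat.mul_le_mul_left _ a1
  have d2 : c * L ≤ c * L ^ K := Nat.mul_le_mul_left _ a4
  have d3 : c ≤ c * L ^ K := Nat.le_mul_of_pos_right _ a5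
  have d4 : (c * d * d) * L ^ (d + d) ≤ (c * d * d) * L ^ K := Nat.mul_le_mul_left _ a3
  have d5 : 2 * (c * d) * L ^ d ≤ 2 * (c * d) * L ^ K := Nat.mul_le_mul_left _ a2
  omega

theorem UPQ (h : FPT_stmt) : UPQ_stmt := by
  obtain ⟨c, hc⟩ := h
  rintro k A ⟨d, hd⟩ ⟨q, hq⟩
  refine ⟨q + 2 * c + c * d * d + 2 * (c * d) + 2 * d + 2, ?_⟩
  intro n
  obtain ⟨s, hs, C, o, hC⟩ := hq n
  obtain ⟨s', hs', C', o', h1, h2⟩ := hc n s (min (k n) n) C o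
  refine ⟨s', hs'.trans (UPQ_size hs (hd n)), C', o', ?_, ?_⟩
  · intro x
    rw [h1 x]
    exact hC x
  · intro α b hα hb
    apply h2 α b _ hb
    apply le_min hα
    unfold unst
    exact (Finset.card_le_univ _).trans (by simp)

end Pool.Agent.HZF
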